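import Mathlib
import Pool.Agent.TeamU.G3
import Pool.Agent.TeamU.G4

/-!
Units of number fields with bounded root discriminant: Minkowski's theorem with weights and the
number of ideals of bounded norm.
-/

set_option autoImplicit false

open NumberField NumberField.InfinitePlace NumberField.mixedEmbedding Module MeasureTheory
open scoped nonZeroDivisors NNReal ENNReal

namespace Q143.KF

/-- Minkowski's theorem for boxes: if `√|disc K| < ∏ f(w)^{mult w}` then there is a nonzero integer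
of `K` with `|a|_w < f(w)` for all `w`. -/
theorem exists_small (K : Type*) [Field K] [NumberField K] (f : InfinitePlace K → ℝ≥0)
    (hc : √|(discr K : ℝ)| < ∏ w : InfinitePlace K, (f w : ℝ) ^ mult w) :
    ∃ x : 𝓞 K, x ≠ 0 ∧ ∀ w : InfinitePlace K, w (x : K) < f w := by
  classical
  have hN : finrank ℚ K = nrRealPlaces K + 2 * nrComplexPlaces K :=
    (card_add_two_mul_card_eq_rank K).symm
  have h : minkowskiBound K ↑1 < volume (convexBodyLT K f) := by
    rw [minkowskiBound, volume_fundamentalDomain_fractionalIdealLatticeBasis,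
      volume_fundamentalDomain_latticeBasis, convexBodyLT_volume, mixedEmbedding.finrank]
    have h1 : (FractionalIdeal.absNorm ((1 : (FractionalIdeal (𝓞 K)⁰ K)ˣ) :
        FractionalIdeal (𝓞 K)⁰ K) : ℚ) = 1 := by
      rw [Units.val_one, map_one]
    rw [h1]
    have h2 : ENNReal.ofReal (((1 : ℚ) : ℝ)) = 1 := by simp
    rw [h2, one_mul]
    have h3 : ((2 : ℝ≥0∞)⁻¹ ^ nrComplexPlaces K) =
        (((2 : ℝ≥0)⁻¹ ^ nrComplexPlaces K : ℝ≥0) : ℝ≥0∞) := by
      rw [ENNReal.coe_pow, ENNReal.coe_inv two_ne_zero]; rfl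
    rw [h3, show (2 : ℝ≥0∞) = ((2 : ℝ≥0) : ℝ≥0∞) from rfl, ← ENNReal.coe_pow, ← ENNReal.coe_mul,
      ← ENNReal.coe_mul, ← ENNReal.coe_mul, ENNReal.coe_lt_coe,
      ← NNReal.coe_lt_coe]
    push_cast
    rw [Int.norm_eq_abs, NNReal.coe_real_pi]
    have h5 : (2 : ℝ)⁻¹ ^ nrComplexPlaces K * 2 ^ finrank ℚ K =
        2 ^ nrRealPlaces K * 2 ^ nrComplexPlaces K := by
      rw [hN, pow_add, pow_mul', sq, ← mul_assoc, mul_comm ((2 : ℝ)⁻¹ ^ nrComplexPlaces K),
        inv_pow]
      field_simp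
    calc ((2 : ℝ)⁻¹ ^ nrComplexPlaces K * √|(discr K : ℝ)|) *
          2 ^ finrank ℚ K
        = √|(discr K : ℝ)| *
          ((2 : ℝ)⁻¹ ^ nrComplexPlaces K * 2 ^ finrank ℚ K) := by ring
      _ = √|(discr K : ℝ)| *
          (2 ^ nrRealPlaces K * 2 ^ nrComplexPlaces K) := by rw [h5]
      _ < (∏ w : InfinitePlace K, (f w : ℝ) ^ mult w) *
          (2 ^ nrRealPlaces K * 2 ^ nrComplexPlaces K) := by
          apply mul_lt_mul_of_pos_right hc; positivity
      _ ≤ (∏ w : InfinitePlace K, (f w : ℝ) ^ mult w) *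
          (2 ^ nrRealPlaces K * Real.pi ^ nrComplexPlaces K) := by
          gcongr
          exact Real.two_le_pi
      _ = 2 ^ nrRealPlaces K * Real.pi ^ nrComplexPlaces K *
          ∏ w : InfinitePlace K, (f w : ℝ) ^ mult w := by ring
  exact exists_ne_zero_mem_ringOfIntegers_lt K h

end Q143.KF
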