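import Mathlib
import Pool.Agent.Q143.KF.Mink
import Pool.Agent.TeamU.GMink

/-!
The number of ideals of bounded norm in a number field with bounded root discriminant.
-/

set_option autoImplicit false

open NumberField Module Finset Pool.Agent.TeamU

namespace Q143.KF

/-- An ideal of norm `n` has at most `n` divisors. -/
theorem card_divisors_le {K : Type*} [Field K] [NumberField K] (J : Ideal (𝓞 K)) (hJ : J ≠ 0)
    (T : Finset (Ideal (𝓞 K))) (hT : ∀ I ∈ T, I ∣ J) : T.card ≤ Ideal.absNorm J := by
  classical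
  induction J using UniqueFactorizationMonoid.induction_on_prime generalizing T with
  | h₁ => exact absurd rfl hJ
  | h₂ x hx =>
    rw [Ideal.isUnit_iff] at hx
    subst hx
    have h1 : T ⊆ {1} := by
      intro I hI
      have h := hT I hI
      rw [← Ideal.one_eq_top] at h
      rw [mem_singleton]
      exact isUnit_iff_dvd_one.mpr h |> fun hu => by
        rw [Ideal.isUnit_iff] at hu
        rw [hu, Ideal.one_eq_top]
    calc T.card ≤ ({1} : Finset (Ideal (𝓞 K))).card := card_le_card h1
      _ = 1 := card_singleton _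
      _ ≤ _ := by rw [← Ideal.one_eq_top, map_one]
  | h₃ a p ha hp ih =>
    have hp0 : p ≠ 0 := hp.ne_zero
    have hpn : 2 ≤ Ideal.absNorm p := by
      have h0 : Ideal.absNorm p ≠ 0 := by
        rw [Ne, Ideal.absNorm_eq_zero_iff]; exact hp0
      have h1 : Ideal.absNorm p ≠ 1 := by
        rw [Ne, Ideal.absNorm_eq_one_iff]
        intro h
        exact hp.not_isUnit (by rw [Ideal.isUnit_iff]; exact h)
      omega
    -- the members divisible by `p`
    have hT1 : (T.filter (fun I => p ∣ I)).card ≤ Ideal.absNorm a := by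
      have hex : ∀ I ∈ T.filter (fun I => p ∣ I), ∃ I', I = p * I' := by
        intro I hI
        exact (mem_filter.mp hI).2
      choose! g hg using hex
      have hinj : Set.InjOn g (T.filter (fun I => p ∣ I)) := by
        intro I hI I' hI' h
        rw [hg I hI, hg I' hI', h]
      rw [← card_image_of_injOn hinj]
      refine ih ha _ ?_
      intro I' hI'
      obtain ⟨I, hI, rfl⟩ := mem_image.mp hI'
      have h1 := hT I (mem_filter.mp hI).1
      rw [hg I hI] at h1
      exact (mul_dvd_mul_iff_left hp0).mp h1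
    have hT2 : (T.filter (fun I => ¬ p ∣ I)).card ≤ Ideal.absNorm a := by
      refine ih ha _ ?_
      intro I hI
      obtain ⟨hI, hpI⟩ := mem_filter.mp hI
      obtain ⟨c, hc⟩ := hT I hI
      have h1 : p ∣ I * c := by rw [← hc]; exact dvd_mul_right _ _
      obtain ⟨c', rfl⟩ := (hp.dvd_or_dvd h1).resolve_left hpI
      refine ⟨c', ?_⟩
      have h2 : p * a = p * (I * c') := by rw [hc]; ring
      exact mul_left_cancel₀ hp0 h2
    rw [← card_filter_add_card_filter_not (fun I => p ∣ I), map_mul]
    calc _ ≤ Ideal.absNorm a + Ideal.absNorm a := Nat.add_le_add hT1 hT2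
      _ = 2 * Ideal.absNorm a := by ring
      _ ≤ _ := Nat.mul_le_mul_right _ hpn

/-- The number of ideals of norm at most `X ^ d`. -/
theorem card_ideals_le {K : Type} [Field K] [NumberField K] (c X : ℕ)
    (hc : √|(discr K : ℝ)| < (c : ℝ) ^ finrank ℚ K) (S : Finset (Ideal (𝓞 K)))
    (hS : ∀ I ∈ S, I ≠ ⊥ ∧ Ideal.absNorm I ≤ X ^ finrank ℚ K) :
    S.card ≤ ((4 * (X * c) + 1) ^ 2 * (X * c)) ^ finrank ℚ K := by
  classical
  have hex : ∀ I ∈ S, ∃ x : 𝓞 K, x ∈ I ∧ x ≠ 0 ∧ ∀ w : InfinitePlace K, w (x : K) < (X * c : ℕ) := by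
    intro I hI
    obtain ⟨hI0, hIn⟩ := hS I hI
    obtain ⟨x, hx, hx0, hxw⟩ := exists_small_mem_ideal K I hI0 ((X * c : ℕ) : NNReal) (by
      have h1 : (Ideal.absNorm I : ℝ) ≤ (X : ℝ) ^ finrank ℚ K := by exact_mod_cast hIn
      have h2 : (0 : ℝ) < Ideal.absNorm I := by
        have : Ideal.absNorm I ≠ 0 := by
          rw [Ne, Ideal.absNorm_eq_zero_iff]; exact hI0
        positivity
      push_cast
      rw [mul_pow]
      calc (Ideal.absNorm I : ℝ) * √|(discr K : ℝ)|
          < (Ideal.absNorm I : ℝ) * (c : ℝ) ^ finrank ℚ K := mul_lt_mul_of_pos_left hc h2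
        _ ≤ _ := by gcongr)
    refine ⟨x, hx, hx0, fun w => ?_⟩
    have := hxw w
    simpa using this
  choose! x hx hx0 hxw using hex
  -- divisors of one element
  have hfib : ∀ y ∈ S.image (fun I => (x I : K)),
      (S.filter (fun I => (x I : K) = y)).card ≤ (X * c) ^ finrank ℚ K := by
    intro y hy
    obtain ⟨I0, hI0, rfl⟩ := mem_image.mp hy
    have h1 : (Ideal.span {x I0} : Ideal (𝓞 K)) ≠ 0 := by
      rw [Ideal.zero_eq_bot, Ne, Ideal.span_singleton_eq_bot]
      exact hx0 I0 hI0
    have h2 := card_divisors_le (Ideal.span {x I0}) h1 (S.filter (fun I => (x I : K) = x I0)) (by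
      intro I hI
      obtain ⟨hI, hIx⟩ := mem_filter.mp hI
      have : x I = x I0 := RingOfIntegers.ext hIx
      rw [← this, Ideal.dvd_span_singleton]
      exact hx I hI)
    refine h2.trans ?_
    have h3 := absNorm_span_le (x I0) ((X * c : ℕ) : ℝ) (fun w => (hxw I0 hI0 w).le)
    exact_mod_cast h3
  have himg : (S.image (fun I => (x I : K))).card ≤ ((4 * (X * c) + 1) ^ 2) ^ finrank ℚ K := by
    refine card_le_of_bounded _ (X * c) ?_ ?_
    · intro y hy
      obtain ⟨I, hI, rfl⟩ := mem_image.mp hy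
      exact (x I).2
    · intro y hy φ
      obtain ⟨I, hI, rfl⟩ := mem_image.mp hy
      have := hxw I hI (InfinitePlace.mk φ)
      rw [InfinitePlace.apply] at this
      exact this.le
  calc S.card ≤ (X * c) ^ finrank ℚ K * (S.image (fun I => (x I : K))).card :=
        Finset.card_le_mul_card_image S _ hfib
    _ ≤ (X * c) ^ finrank ℚ K * ((4 * (X * c) + 1) ^ 2) ^ finrank ℚ K :=
        Nat.mul_le_mul_left _ himg
    _ = _ := by rw [← mul_pow, mul_comm]

end Q143.KF
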