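import Mathlib
import Pool.Agent.Q143.KF.Ideals

/-!
Totally real number fields with bounded root discriminant have exponentially many units all of
whose absolute values are bounded.
-/

set_option autoImplicit false

open NumberField Module Finset Pool.Agent.TeamU

namespace Q143.KF

theorem card_places {L : Type*} [Field L] [NumberField L] (hr : IsTotallyReal L) :
    Fintype.card (InfinitePlace L) = finrank ℚ L := by
  have h1 := InfinitePlace.sum_mult_eq (K := L)
  rw [← h1]
  simp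

/-- Totally real number fields of bounded root discriminant have many units with bounded absolute
values. -/
theorem units_many (C : ℕ) : ∃ C2 : ℕ, 0 < C2 ∧ ∀ (L : Type) [Field L] [NumberField L],
    IsTotallyReal L → (discr L).natAbs ≤ C ^ finrank ℚ L → ∀ M : ℕ,
    finrank ℚ L * M + 1 ≤ 2 ^ finrank ℚ L →
    ∃ U : Finset (𝓞 L)ˣ, (M + 1) ^ finrank ℚ L ≤ U.card * C2 ^ finrank ℚ L ∧
      ∀ u ∈ U, ∀ w : InfinitePlace L, w ((u : 𝓞 L) : L) ≤ 3 ^ (M + 1) ∧
        1 ≤ 3 ^ (M + 1) * w ((u : 𝓞 L) : L) := by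
  classical
  set c : ℕ := C + 1 with hc
  set K1 : ℕ := (4 * (c * c) + 1) ^ 2 * (c * c) with hK1
  refine ⟨2 * (K1 * (3 * 2 ^ c)), by positivity, fun L _ _ hr hD M hM => ?_⟩
  set d := finrank ℚ L with hd
  have hdpos : 0 < d := finrank_pos
  have hcard : Fintype.card (InfinitePlace L) = d := card_places hr
  have hmult : ∀ w : InfinitePlace L, w.mult = 1 := fun w => IsTotallyReal.mult_eq w
  have hcR : (1 : ℝ) ≤ c := by rw [hc]; push_cast; linarith [(Nat.cast_nonneg C : (0 : ℝ) ≤ C)]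
  have hsq : √|(discr L : ℝ)| < (c : ℝ) ^ d := by
    rw [Real.sqrt_lt' (by positivity)]
    have h6 : |(discr L : ℝ)| = ((discr L).natAbs : ℝ) := by
      rw [Nat.cast_natAbs]; push_cast; rfl
    rw [h6]
    have h7 : (discr L).natAbs < c ^ d := lt_of_le_of_lt hD
      (Nat.pow_lt_pow_left (by omega) hdpos.ne')
    have h8 : ((discr L).natAbs : ℝ) < (c : ℝ) ^ d := by exact_mod_cast h7
    have h9 : (1 : ℝ) ≤ (c : ℝ) ^ d := one_le_pow₀ hcR
    nlinarith
  -- exponent vectors
  let box : Finset (InfinitePlace L → ℕ) :=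
    Fintype.piFinset fun _ : InfinitePlace L => Finset.range (M + 1)
  have hboxcard : box.card = (M + 1) ^ d := by
    simp only [box, Fintype.card_piFinset, Finset.card_range, Finset.prod_const,
      Finset.card_univ, hcard]
  have hbox : ∀ e ∈ box, ∀ w, e w ≤ M := by
    intro e he w
    have := Fintype.mem_piFinset.mp he w
    rw [Finset.mem_range] at this
    omega
  have hboxne : box.Nonempty := by
    rw [← Finset.card_pos, hboxcard]; positivity
  -- fix the sum
  let sm : (InfinitePlace L → ℕ) → ℕ := fun e => ∑ w, e w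
  obtain ⟨s0, hs0, hs0max⟩ := Finset.exists_max_image (box.image sm)
    (fun s => (box.filter (fun e => sm e = s)).card) (hboxne.image sm)
  set F0 := box.filter (fun e => sm e = s0) with hF0
  have hF0card : box.card ≤ F0.card * 2 ^ d := by
    refine (Finset.card_le_mul_card_image box F0.card hs0max).trans
      (Nat.mul_le_mul_left _ ?_)
    have h1 : box.image sm ⊆ Finset.range (d * M + 1) := by
      intro s hs
      obtain ⟨e, he, rfl⟩ := mem_image.mp hs
      rw [Finset.mem_range]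
      have : ∑ w, e w ≤ ∑ _w : InfinitePlace L, M := Finset.sum_le_sum fun w _ => hbox e he w
      rw [Finset.sum_const, Finset.card_univ, hcard, smul_eq_mul] at this
      exact Nat.lt_succ_of_le this
    calc _ ≤ (Finset.range (d * M + 1)).card := card_le_card h1
      _ = d * M + 1 := card_range _
      _ ≤ _ := hM
  -- the scale
  set t : ℝ := c * (3 : ℝ) ^ (-((s0 : ℝ) / d)) with ht
  have ht0 : 0 < t := by
    rw [ht]
    have : (0 : ℝ) < c := by linarith
    positivity
  have htpow : t ^ d * 3 ^ s0 = (c : ℝ) ^ d := by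
    rw [ht, mul_pow, ← Real.rpow_natCast ((3 : ℝ) ^ (-((s0 : ℝ) / d))), ← Real.rpow_mul (by norm_num)]
    have h1 : -((s0 : ℝ) / d) * (d : ℝ) = -(s0 : ℝ) := by
      have : (d : ℝ) ≠ 0 := by positivity
      field_simp
    rw [h1, Real.rpow_neg (by norm_num), Real.rpow_natCast, mul_assoc,
      inv_mul_cancel₀ (by positivity), mul_one]
  -- the small elements
  have hex : ∀ e ∈ F0, ∃ x : 𝓞 L, x ≠ 0 ∧ ∀ w : InfinitePlace L, w (x : L) < t * 3 ^ e w := by
    intro e he
    obtain ⟨heb, hes⟩ := mem_filter.mp he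
    have hes : ∑ w, e w = s0 := hes
    have hco : ∀ w, ((Real.toNNReal (t * 3 ^ e w) : NNReal) : ℝ) = t * 3 ^ e w := fun w =>
      Real.coe_toNNReal _ (by positivity)
    obtain ⟨x, hx, hxw⟩ := exists_small L (fun w => Real.toNNReal (t * 3 ^ e w)) (by
      simp only [hmult, pow_one, hco]
      rw [Finset.prod_mul_distrib, Finset.prod_const, Finset.card_univ, hcard,
          Finset.prod_pow_eq_pow_sum, hes, htpow]
      exact hsq)
    exact ⟨x, hx, fun w => by rw [← hco w]; exact hxw w⟩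
  choose! a ha0 haw using hex
  have haw0 : ∀ e ∈ F0, ∀ w : InfinitePlace L, 0 < w (a e : L) := by
    intro e he w
    rw [InfinitePlace.pos_iff]
    intro h
    exact ha0 e he (RingOfIntegers.ext (h.trans (map_zero _).symm))
  -- the deficits
  have hnex : ∀ e ∈ F0, ∃ n : InfinitePlace L → ℕ, ∀ w,
      3 ^ n w * w (a e : L) ≤ t * 3 ^ e w ∧ t * 3 ^ e w < 3 ^ (n w + 1) * w (a e : L) := by
    intro e he
    have h1 : ∀ w : InfinitePlace L, ∃ n : ℕ,
        (3 : ℝ) ^ n ≤ t * 3 ^ e w / w (a e : L) ∧ t * 3 ^ e w / w (a e : L) < 3 ^ (n + 1) := by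
      intro w
      refine exists_nat_pow_near ?_ (by norm_num)
      rw [one_le_div (haw0 e he w)]
      exact (haw e he w).le
    choose n hn using h1
    refine ⟨n, fun w => ?_⟩
    obtain ⟨h2, h3⟩ := hn w
    rw [le_div_iff₀ (haw0 e he w)] at h2
    rw [div_lt_iff₀ (haw0 e he w)] at h3
    exact ⟨h2, h3⟩
  choose! n hn using hnex
  -- norms
  have hnorm : ∀ e ∈ F0, (3 : ℝ) ^ (∑ w, n e w) * (Ideal.absNorm (Ideal.span {a e}) : ℝ) ≤
      (c : ℝ) ^ d := by
    intro e he
    obtain ⟨heb, hes⟩ := mem_filter.mp he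
    have hes : ∑ w, e w = s0 := hes
    have h1 := InfinitePlace.prod_eq_abs_norm (a e : L)
    have h2 : (Ideal.absNorm (Ideal.span {a e}) : ℝ) = ∏ w : InfinitePlace L, w (a e : L) := by
      rw [Ideal.absNorm_span_singleton]
      have h2 : ((Algebra.norm ℤ (a e)).natAbs : ℝ) =
          |((Algebra.norm ℚ (a e : L) : ℚ) : ℝ)| := by
        rw [← Algebra.coe_norm_int (a e), Nat.cast_natAbs]
        push_cast
        rfl
      have h3 : ∏ w : InfinitePlace L, w (a e : L) ^ w.mult = ∏ w : InfinitePlace L, w (a e : L) :=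
        Finset.prod_congr rfl fun w _ => by rw [hmult, pow_one]
      rw [h2, ← h3, h1]
      push_cast
      rfl
    rw [h2, ← Finset.prod_pow_eq_pow_sum, ← Finset.prod_mul_distrib, ← htpow, ← hes,
      ← Finset.prod_pow_eq_pow_sum, ← hcard, ← Finset.card_univ, ← Finset.prod_const,
      ← Finset.prod_mul_distrib]
    exact Finset.prod_le_prod (fun w _ => mul_nonneg (by positivity) (haw0 e he w).le)
      fun w _ => (hn e he w).1
  have hspan0 : ∀ e ∈ F0, (Ideal.span {a e} : Ideal (𝓞 L)) ≠ ⊥ := by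
    intro e he
    rw [Ne, Ideal.span_singleton_eq_bot]
    exact ha0 e he
  have habs1 : ∀ e ∈ F0, 1 ≤ Ideal.absNorm (Ideal.span {a e}) := by
    intro e he
    have : Ideal.absNorm (Ideal.span {a e}) ≠ 0 := by
      rw [Ne, Ideal.absNorm_eq_zero_iff]; exact hspan0 e he
    omega
  have hideal : ∀ e ∈ F0, Ideal.absNorm (Ideal.span {a e}) ≤ c ^ d := by
    intro e he
    have h1 := hnorm e he
    have h2 : (1 : ℝ) ≤ 3 ^ (∑ w, n e w) := one_le_pow₀ (by norm_num)
    have h3 : (Ideal.absNorm (Ideal.span {a e}) : ℝ) ≤ (c : ℝ) ^ d := by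
      have h4 : (0 : ℝ) ≤ Ideal.absNorm (Ideal.span {a e}) := Nat.cast_nonneg _
      nlinarith
    exact_mod_cast h3
  have hdef : ∀ e ∈ F0, ∑ w, n e w ≤ c * d := by
    intro e he
    have h1 := hnorm e he
    have h2 : (1 : ℝ) ≤ Ideal.absNorm (Ideal.span {a e}) := by exact_mod_cast habs1 e he
    have h3 : (3 : ℝ) ^ (∑ w, n e w) ≤ (c : ℝ) ^ d := by
      have : (0 : ℝ) < 3 ^ (∑ w, n e w) := by positivity
      nlinarith
    have h4 : 3 ^ (∑ w, n e w) ≤ c ^ d := by exact_mod_cast h3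
    have h5 : c ^ d ≤ (3 ^ c) ^ d := Nat.pow_le_pow_left (Nat.lt_pow_self (by norm_num)).le d
    rw [← pow_mul] at h5
    exact (Nat.pow_le_pow_iff_right (by norm_num)).mp (h4.trans h5)
  -- pigeonhole on the ideal and on the deficits
  let T : Finset (InfinitePlace L → ℕ) :=
    (Fintype.piFinset fun _ : InfinitePlace L => Finset.range (c * d + 1)).filter
      (fun k' => ∑ v, (max ((fun _ => 0) v) (k' v) - min ((fun _ => 0) v) (k' v)) ≤ c * d)
  have hTcard : T.card ≤ (3 * 2 ^ c) ^ d := by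
    refine (card_close (V := InfinitePlace L) (c * d) (c * d) (fun _ => 0)).trans (le_of_eq ?_)
    rw [hcard, mul_pow, ← pow_mul]
  let I : Finset (Ideal (𝓞 L)) := F0.image fun e => Ideal.span {a e}
  have hIcard : I.card ≤ K1 ^ d := by
    refine card_ideals_le c c hsq I ?_
    intro J hJ
    obtain ⟨e, he, rfl⟩ := mem_image.mp hJ
    exact ⟨hspan0 e he, hideal e he⟩
  let g : (InfinitePlace L → ℕ) → Ideal (𝓞 L) × (InfinitePlace L → ℕ) :=
    fun e => (Ideal.span {a e}, n e)
  have hF0ne : F0.Nonempty := by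
    rw [← Finset.card_pos]
    have h1 : 0 < box.card := card_pos.mpr hboxne
    rcases Nat.eq_zero_or_pos F0.card with h | h
    · rw [h, zero_mul] at hF0card; omega
    · exact h
  obtain ⟨β, hβ, hβmax⟩ := Finset.exists_max_image (F0.image g)
    (fun y => (F0.filter (fun e => g e = y)).card) (hF0ne.image g)
  set F1 := F0.filter (fun e => g e = β) with hF1
  have hF1card : F0.card ≤ F1.card * (K1 * (3 * 2 ^ c)) ^ d := by
    refine (Finset.card_le_mul_card_image F0 F1.card hβmax).trans (Nat.mul_le_mul_left _ ?_)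
    have h1 : F0.image g ⊆ I ×ˢ T := by
      intro y hy
      obtain ⟨e, he, rfl⟩ := mem_image.mp hy
      rw [mem_product]
      refine ⟨mem_image_of_mem _ he, ?_⟩
      simp only [g, T, mem_filter, Fintype.mem_piFinset, Finset.mem_range]
      have h2 : ∑ v, (max 0 (n e v) - min 0 (n e v)) = ∑ v, n e v := by
        refine Finset.sum_congr rfl fun v _ => ?_
        simp
      rw [h2]
      refine ⟨fun w => ?_, hdef e he⟩
      have h3 : n e w ≤ ∑ v, n e v := Finset.single_le_sum (fun _ _ => Nat.zero_le _)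
        (Finset.mem_univ w)
      have := hdef e he
      omega
    calc (F0.image g).card ≤ (I ×ˢ T).card := card_le_card h1
      _ = I.card * T.card := card_product _ _
      _ ≤ K1 ^ d * (3 * 2 ^ c) ^ d := Nat.mul_le_mul hIcard hTcard
      _ = _ := (mul_pow _ _ _).symm
  obtain ⟨e0, he0F, he0β⟩ := mem_image.mp hβ
  have he0 : e0 ∈ F1 := mem_filter.mpr ⟨he0F, he0β⟩
  -- the units
  have hu : ∀ e ∈ F1, ∃ u : (𝓞 L)ˣ, a e0 * u = a e := by
    intro e he
    obtain ⟨heF, heβ⟩ := mem_filter.mp he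
    have h1 : g e0 = g e := by rw [he0β, heβ]
    have h2 : Ideal.span {a e0} = Ideal.span {a e} := congrArg Prod.fst h1
    exact Ideal.span_singleton_eq_span_singleton.mp h2
  choose! u hu using hu
  have hneq : ∀ e ∈ F1, n e = n e0 := by
    intro e he
    have h1 : g e = g e0 := by rw [he0β, (mem_filter.mp he).2]
    exact congrArg Prod.snd h1
  have hinj : Set.InjOn u F1 := by
    intro e he e' he' huu
    have h1 : a e = a e' := by rw [← hu e he, ← hu e' he', huu]
    have heF := (mem_filter.mp he).1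
    have heF' := (mem_filter.mp he').1
    funext w
    obtain ⟨p1, p2⟩ := hn e heF w
    obtain ⟨q1, q2⟩ := hn e' heF' w
    rw [hneq e he, h1] at p1 p2
    rw [hneq e' he'] at q1 q2
    have r1 : t * 3 ^ e w < t * 3 ^ (e' w + 1) := by
      calc t * 3 ^ e w < 3 ^ (n e0 w + 1) * w (a e' : L) := p2
        _ = 3 * (3 ^ n e0 w * w (a e' : L)) := by ring
        _ ≤ 3 * (t * 3 ^ e' w) := by gcongr
        _ = _ := by ring
    have r2 : t * 3 ^ e' w < t * 3 ^ (e w + 1) := by
      calc t * 3 ^ e' w < 3 ^ (n e0 w + 1) * w (a e' : L) := q2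
        _ = 3 * (3 ^ n e0 w * w (a e' : L)) := by ring
        _ ≤ 3 * (t * 3 ^ e w) := by gcongr
        _ = _ := by ring
    have r3 : (3 : ℝ) ^ e w < 3 ^ (e' w + 1) := lt_of_mul_lt_mul_left r1 ht0.le
    have r4 : (3 : ℝ) ^ e' w < 3 ^ (e w + 1) := lt_of_mul_lt_mul_left r2 ht0.le
    have r5 := (pow_lt_pow_iff_right₀ (by norm_num : (1 : ℝ) < 3)).mp r3
    have r6 := (pow_lt_pow_iff_right₀ (by norm_num : (1 : ℝ) < 3)).mp r4
    omega
  refine ⟨F1.image u, ?_, ?_⟩
  · rw [card_image_of_injOn hinj, ← hboxcard]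
    calc box.card ≤ F0.card * 2 ^ d := hF0card
      _ ≤ (F1.card * (K1 * (3 * 2 ^ c)) ^ d) * 2 ^ d := Nat.mul_le_mul_right _ hF1card
      _ = _ := by rw [mul_pow 2]; ring
  · intro v hv w
    obtain ⟨e, he, rfl⟩ := mem_image.mp hv
    have heF := (mem_filter.mp he).1
    obtain ⟨p1, p2⟩ := hn e heF w
    obtain ⟨q1, q2⟩ := hn e0 he0F w
    rw [hneq e he] at p1 p2
    have h1 : w (a e : L) = w (a e0 : L) * w ((u e : 𝓞 L) : L) := by
      rw [← map_mul, ← map_mul, hu e he]
    have h0 : 0 < w (a e0 : L) := haw0 e0 he0F w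
    have hpow : (0 : ℝ) < 3 ^ n e0 w := by positivity
    have hwu : 0 ≤ w ((u e : 𝓞 L) : L) := apply_nonneg w _
    have hE : (3 : ℝ) ^ e w ≤ 3 ^ M := pow_le_pow_right₀ (by norm_num) (hbox e (mem_filter.mp heF).1 w)
    have hE0 : (3 : ℝ) ^ e0 w ≤ 3 ^ M :=
      pow_le_pow_right₀ (by norm_num) (hbox e0 (mem_filter.mp he0F).1 w)
    have hE' : (1 : ℝ) ≤ 3 ^ e w := one_le_pow₀ (by norm_num)
    have hE0' : (1 : ℝ) ≤ 3 ^ e0 w := one_le_pow₀ (by norm_num)
    rw [h1] at p1 p2
    constructor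
    · -- `3 ^ n w(a0) w(u) ≤ t 3 ^ e ≤ 3 ^ M t 3 ^ e0 < 3 ^ M 3 ^ (n + 1) w(a0)`
      have h2 : 3 ^ n e0 w * (w (a e0 : L) * w ((u e : 𝓞 L) : L)) ≤
          3 ^ M * (3 ^ (n e0 w + 1) * w (a e0 : L)) := by
        calc 3 ^ n e0 w * (w (a e0 : L) * w ((u e : 𝓞 L) : L)) ≤ t * 3 ^ e w := p1
          _ ≤ t * 3 ^ M := by gcongr
          _ ≤ 3 ^ M * (t * 3 ^ e0 w) := by
              have : 0 ≤ 3 ^ M * t := by positivity
              nlinarith
          _ ≤ _ := by gcongr
      have h3 : (3 ^ n e0 w * w (a e0 : L)) * w ((u e : 𝓞 L) : L) ≤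
          (3 ^ n e0 w * w (a e0 : L)) * 3 ^ (M + 1) := by
        calc _ = 3 ^ n e0 w * (w (a e0 : L) * w ((u e : 𝓞 L) : L)) := by ring
          _ ≤ _ := h2
          _ = _ := by ring
      exact le_of_mul_le_mul_left h3 (by positivity)
    · have h2 : 3 ^ n e0 w * w (a e0 : L) ≤
          3 ^ M * (3 ^ (n e0 w + 1) * (w (a e0 : L) * w ((u e : 𝓞 L) : L))) := by
        calc 3 ^ n e0 w * w (a e0 : L) ≤ t * 3 ^ e0 w := q1
          _ ≤ t * 3 ^ M := by gcongr
          _ ≤ 3 ^ M * (t * 3 ^ e w) := by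
              have : 0 ≤ 3 ^ M * t := by positivity
              nlinarith
          _ ≤ _ := by gcongr
      have h3 : (3 ^ n e0 w * w (a e0 : L)) * 1 ≤
          (3 ^ n e0 w * w (a e0 : L)) * (3 ^ (M + 1) * w ((u e : 𝓞 L) : L)) := by
        calc _ = 3 ^ n e0 w * w (a e0 : L) := by ring
          _ ≤ _ := h2
          _ = _ := by ring
      exact le_of_mul_le_mul_left h3 (by positivity)

end Q143.KF
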