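import Mathlib
import Pool.Agent.Q143.KF.Units
import Pool.Agent.TeamU.TowerFinal

/-!
Finite sets of totally positive or negative units with few `k`-fold sums and few `k`-fold products.
-/

set_option autoImplicit false

open NumberField Module Finset Pool.Agent.TeamU

namespace Q143.KF

/-- The number of integers of a totally real field with bounded absolute values. -/
theorem card_box_real {L : Type} [Field L] [NumberField L] (hr : IsTotallyReal L)
    (S : Finset (𝓞 L)) (B : ℕ) (hb : ∀ x ∈ S, ∀ w : InfinitePlace L, w (x : L) ≤ B) :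
    S.card ≤ (2 * B + 1) ^ finrank ℚ L := by
  classical
  let f : 𝓞 L → (InfinitePlace L → ℤ) := fun x w => ⌊(w.embedding (x : L)).re⌋
  let T : Finset (InfinitePlace L → ℤ) := Fintype.piFinset fun _ => Finset.Icc (-(B : ℤ)) B
  have hT : T.card = (2 * B + 1) ^ finrank ℚ L := by
    simp only [T, Fintype.card_piFinset, Int.card_Icc, Finset.prod_const, Finset.card_univ,
      card_places hr]
    congr 1
    omega
  rw [← hT]
  refine Finset.card_le_card_of_injOn f ?_ ?_
  · intro x hx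
    simp only [T, Finset.mem_coe, Fintype.mem_piFinset, Finset.mem_Icc, f]
    intro w
    have h1 := hb x hx w
    rw [← InfinitePlace.norm_embedding_eq w] at h1
    have h2 := abs_le.mp ((Complex.abs_re_le_norm (w.embedding (x : L))).trans h1)
    refine ⟨?_, ?_⟩
    · rw [Int.le_floor]; push_cast; linarith [h2.1]
    · have : ((⌊(w.embedding (x : L)).re⌋ : ℤ) : ℝ) ≤ (w.embedding (x : L)).re := Int.floor_le _
      have h6 : ((⌊(w.embedding (x : L)).re⌋ : ℤ) : ℝ) ≤ ((B : ℤ) : ℝ) := by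
        push_cast; linarith [h2.2]
      exact_mod_cast h6
  · intro x _ y _ hxy
    have h0 : (x : L) - y = 0 := by
      refine eq_zero_of_small ((x : L) - y) (x.2.sub y.2) fun ψ => ?_
      have hw := congrFun hxy (InfinitePlace.mk ψ)
      simp only [f] at hw
      have h1 := Int.abs_sub_lt_one_of_floor_eq_floor hw
      have h2 : ‖ψ ((x : L) - y)‖ = ‖(InfinitePlace.mk ψ).embedding ((x : L) - y)‖ := by
        rw [InfinitePlace.norm_embedding_eq, InfinitePlace.apply]
      rw [h2]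
      have hreal := real_of_totallyReal hr (InfinitePlace.mk ψ).embedding ((x : L) - y)
      rw [Complex.conj_eq_iff_re] at hreal
      rw [← hreal, Complex.norm_real, map_sub, Complex.sub_re, Real.norm_eq_abs]
      exact h1
    exact RingOfIntegers.ext (sub_eq_zero.mp h0)

/-- The number of units with bounded logarithms. -/
theorem card_units {L : Type} [Field L] [NumberField L] (hr : IsTotallyReal L)
    (S : Finset (𝓞 L)ˣ) (B : ℕ) (hb : ∀ u ∈ S, ∀ w : InfinitePlace L,
      w ((u : 𝓞 L) : L) ≤ 3 ^ B ∧ 1 ≤ 3 ^ B * w ((u : 𝓞 L) : L)) :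
    S.card ≤ (7 * (2 * B + 1)) ^ finrank ℚ L := by
  classical
  have hex : ∀ u ∈ S, ∃ n : InfinitePlace L → ℕ, ∀ w,
      (3 : ℝ) ^ n w ≤ 3 ^ B * w ((u : 𝓞 L) : L) ∧ 3 ^ B * w ((u : 𝓞 L) : L) < 3 ^ (n w + 1) := by
    intro u hu
    have h1 : ∀ w : InfinitePlace L, ∃ n : ℕ,
      (3 : ℝ) ^ n ≤ 3 ^ B * w ((u : 𝓞 L) : L) ∧ 3 ^ B * w ((u : 𝓞 L) : L) < 3 ^ (n + 1) :=
      fun w => exists_nat_pow_near (hb u hu w).2 (by norm_num)
    choose n hn using h1
    exact ⟨n, hn⟩
  choose! n hn using hex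
  have hle : ∀ u ∈ S, ∀ w, n u w ≤ 2 * B := by
    intro u hu w
    have h1 := (hn u hu w).1
    have h2 : (3 : ℝ) ^ n u w ≤ 3 ^ (2 * B) := by
      calc (3 : ℝ) ^ n u w ≤ 3 ^ B * w ((u : 𝓞 L) : L) := h1
        _ ≤ 3 ^ B * 3 ^ B := by gcongr; exact (hb u hu w).1
        _ = _ := by rw [two_mul, pow_add]
    exact (pow_le_pow_iff_right₀ (by norm_num : (1 : ℝ) < 3)).mp h2
  have himg : (S.image n).card ≤ (2 * B + 1) ^ finrank ℚ L := by
    have h1 : S.image n ⊆ Fintype.piFinset fun _ : InfinitePlace L => Finset.range (2 * B + 1) := by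
      intro y hy
      obtain ⟨u, hu, rfl⟩ := mem_image.mp hy
      rw [Fintype.mem_piFinset]
      intro w
      rw [Finset.mem_range]
      exact Nat.lt_succ_of_le (hle u hu w)
    refine (card_le_card h1).trans (le_of_eq ?_)
    simp only [Fintype.card_piFinset, Finset.card_range, Finset.prod_const, Finset.card_univ,
      card_places hr]
  have hfib : ∀ y ∈ S.image n, (S.filter (fun u => n u = y)).card ≤ 7 ^ finrank ℚ L := by
    intro y hy
    obtain ⟨u0, hu0, rfl⟩ := mem_image.mp hy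
    let g : (𝓞 L)ˣ → 𝓞 L := fun u => ((u * u0⁻¹ : (𝓞 L)ˣ) : 𝓞 L)
    have hg : Function.Injective g := fun u v h => mul_right_cancel (Units.ext h)
    rw [← card_image_of_injective _ hg]
    have h7 := card_box_real hr ((S.filter (fun u => n u = n u0)).image g) 3 ?_
    · exact h7.trans (le_of_eq (by norm_num))
    intro x hx w
    obtain ⟨u, hu, rfl⟩ := mem_image.mp hx
    obtain ⟨huS, hun⟩ := mem_filter.mp hu
    have h1 := (hn u huS w).2
    have h2 := (hn u0 hu0 w).1
    rw [hun] at h1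
    have h3 : w ((g u : 𝓞 L) : L) * w ((u0 : 𝓞 L) : L) = w ((u : 𝓞 L) : L) := by
      rw [← map_mul, ← map_mul]
      congr 2
      simp only [g]
      rw [← Units.val_mul, inv_mul_cancel_right]
    have h4 : (0 : ℝ) < w ((u0 : 𝓞 L) : L) := by
      have := (hb u0 hu0 w).2
      have h5 : (0 : ℝ) < 3 ^ B := by positivity
      by_contra h
      push Not at h
      nlinarith
    have h5 : w ((g u : 𝓞 L) : L) * w ((u0 : 𝓞 L) : L) ≤ 3 * w ((u0 : 𝓞 L) : L) := by
      rw [h3]
      have h6 : (3 : ℝ) ^ B * w ((u : 𝓞 L) : L) ≤ 3 ^ B * (3 * w ((u0 : 𝓞 L) : L)) := by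
        calc (3 : ℝ) ^ B * w ((u : 𝓞 L) : L) ≤ 3 ^ (n u0 w + 1) := h1.le
          _ = 3 * 3 ^ n u0 w := by ring
          _ ≤ 3 * (3 ^ B * w ((u0 : 𝓞 L) : L)) := by gcongr
          _ = _ := by ring
      exact le_of_mul_le_mul_left h6 (by positivity)
    have h6 := le_of_mul_le_mul_right h5 h4
    simpa using h6
  calc S.card ≤ 7 ^ finrank ℚ L * (S.image n).card := Finset.card_le_mul_card_image S _ hfib
    _ ≤ 7 ^ finrank ℚ L * (2 * B + 1) ^ finrank ℚ L := Nat.mul_le_mul_left _ himg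
    _ = _ := by rw [← mul_pow]

/-- The set of the `k`-fold sums. -/
noncomputable def sums (A : Finset ℝ) (k : ℕ) : Finset ℝ :=
  (Fintype.piFinset fun _ : Fin k => A).image fun f => ∑ i, f i

/-- The set of the `k`-fold products. -/
noncomputable def prods (A : Finset ℝ) (k : ℕ) : Finset ℝ :=
  (Fintype.piFinset fun _ : Fin k => A).image fun f => ∏ i, f i

theorem sq_le_two_pow (d : ℕ) (hd : 4 ≤ d) : d * d ≤ 2 ^ d := by
  induction d, hd using Nat.le_induction with
  | base => norm_num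
  | succ n hn ih => rw [pow_succ]; nlinarith

/-- The sets of units. -/
theorem unit_sets : ∃ C : ℕ, 0 < C ∧ ∀ b : ℕ, 1 ≤ b → ∀ N : ℕ,
    ∃ (L : Type) (_ : Field L) (_ : NumberField L) (φ : L →+* ℝ) (A : Finset ℝ),
      IsTotallyReal L ∧ N ≤ finrank ℚ L ∧ b ^ finrank ℚ L ≤ A.card ∧
      (∀ x ∈ A, 0 < x ∧ ∃ u : (𝓞 L)ˣ, φ ((u : 𝓞 L) : L) = x) ∧
      ∀ k : ℕ, 1 ≤ k → (sums A k).card ≤ (k * C ^ b) ^ finrank ℚ L ∧
        (prods A k).card ≤ (C * k * b) ^ finrank ℚ L := by
  classical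
  obtain ⟨C0, hC0⟩ := tower
  obtain ⟨C2, hC2, hU⟩ := units_many C0
  refine ⟨42 * C2 + 3 ^ (2 * C2 + 1), by positivity, fun b hb N => ?_⟩
  obtain ⟨L, _, _, hr, -, hN, hdisc⟩ := hC0 (max (max N 4) (2 * C2 * b))
  set d := finrank ℚ L with hd
  have hdN : N ≤ d := le_trans (le_trans (le_max_left _ _) (le_max_left _ _)) hN
  have hd4 : 4 ≤ d := le_trans (le_trans (le_max_right _ _) (le_max_left _ _)) hN
  have hdM : 2 * C2 * b ≤ d := (le_max_right _ _).trans hN
  have h2b : 1 ≤ 2 * C2 * b := Nat.mul_pos (by positivity) hb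
  obtain ⟨M, hM⟩ : ∃ M, M + 1 = 2 * C2 * b := ⟨2 * C2 * b - 1, by omega⟩
  obtain ⟨U, hUcard, hUw⟩ := hU L hr hdisc M (by
    calc d * M + 1 ≤ d * (M + 1) := by nlinarith
      _ ≤ d * d := Nat.mul_le_mul_left _ (by omega)
      _ ≤ 2 ^ d := sq_le_two_pow d hd4)
  -- a real embedding
  obtain ⟨w0⟩ : Nonempty (InfinitePlace L) := inferInstance
  let φ : L →+* ℝ := InfinitePlace.embedding_of_isReal (hr.isReal w0)
  have hφ0 : ∀ u : (𝓞 L)ˣ, φ ((u : 𝓞 L) : L) ≠ 0 := by
    intro u
    rw [Ne, map_eq_zero]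
    intro h
    exact u.ne_zero (RingOfIntegers.ext (h.trans (map_zero _).symm))
  let A : Finset ℝ := U.image fun u : (𝓞 L)ˣ => |φ ((u : 𝓞 L) : L)|
  -- every member of `A` is a positive unit with bounded logarithms
  have hA : ∀ x ∈ A, ∃ u : (𝓞 L)ˣ, φ ((u : 𝓞 L) : L) = x ∧ ∀ w : InfinitePlace L,
      w ((u : 𝓞 L) : L) ≤ 3 ^ (M + 1) ∧ 1 ≤ 3 ^ (M + 1) * w ((u : 𝓞 L) : L) := by
    intro x hx
    obtain ⟨u, hu, rfl⟩ := mem_image.mp hx
    rcases le_or_gt 0 (φ ((u : 𝓞 L) : L)) with h | h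
    · exact ⟨u, (abs_of_nonneg h).symm, hUw u hu⟩
    · refine ⟨-u, ?_, fun w => ?_⟩
      · rw [abs_of_neg h, Units.val_neg, ← map_neg]
        rfl
      · have h1 : (((-u : (𝓞 L)ˣ) : 𝓞 L) : L) = -((u : 𝓞 L) : L) := by
          rw [Units.val_neg]; rfl
        have h2 : w (((-u : (𝓞 L)ˣ) : 𝓞 L) : L) = w ((u : 𝓞 L) : L) := by
          rw [h1]
          have := InfinitePlace.norm_embedding_eq w (-((u : 𝓞 L) : L))
          rw [← this, map_neg, norm_neg, InfinitePlace.norm_embedding_eq]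
        rw [h2]
        exact hUw u hu w
  have hApos : ∀ x ∈ A, 0 < x := by
    intro x hx
    obtain ⟨u, hu, rfl⟩ := mem_image.mp hx
    exact abs_pos.mpr (hφ0 u)
  have hAcard : U.card ≤ 2 * A.card := by
    refine Finset.card_le_mul_card_image U 2 ?_
    intro y hy
    obtain ⟨u, hu, rfl⟩ := mem_image.mp hy
    have h1 : U.filter (fun v : (𝓞 L)ˣ => |φ ((v : 𝓞 L) : L)| = |φ ((u : 𝓞 L) : L)|) ⊆ {u, -u} := by
      intro v hv
      have h2 := (mem_filter.mp hv).2
      rw [mem_insert, mem_singleton]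
      rcases abs_eq_abs.mp h2 with h | h
      · left
        have h3 := φ.injective h
        exact Units.ext (RingOfIntegers.ext h3)
      · right
        rw [← map_neg] at h
        have h3 := φ.injective h
        refine Units.ext (RingOfIntegers.ext ?_)
        rw [h3, Units.val_neg]
        rfl
    exact (card_le_card h1).trans card_le_two
  refine ⟨L, inferInstance, inferInstance, φ, A, hr, hdN, ?_, ?_, ?_⟩
  · -- `b ^ d ≤ |A|`
    rw [hM] at hUcard
    have h1 : (2 * b) ^ d * C2 ^ d ≤ (2 * A.card) * C2 ^ d := by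
      calc (2 * b) ^ d * C2 ^ d = (2 * C2 * b) ^ d := by rw [← mul_pow]; ring
        _ ≤ U.card * C2 ^ d := hUcard
        _ ≤ _ := Nat.mul_le_mul_right _ hAcard
    have h2 : (2 * b) ^ d ≤ 2 * A.card := Nat.le_of_mul_le_mul_right h1 (by positivity)
    rw [mul_pow] at h2
    have h3 : 2 ≤ 2 ^ d := Nat.le_self_pow (by omega) 2
    have h4 : 2 * b ^ d ≤ 2 ^ d * b ^ d := Nat.mul_le_mul_right _ h3
    exact Nat.le_of_mul_le_mul_left (h4.trans h2) (by norm_num)
  · intro x hx
    obtain ⟨u, hu, -⟩ := hA x hx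
    exact ⟨hApos x hx, u, hu⟩
  · intro k hk
    constructor
    · -- sums
      have hex : ∀ s ∈ sums A k, ∃ y : 𝓞 L, φ (y : L) = s ∧ ∀ w : InfinitePlace L,
          w (y : L) ≤ (k * 3 ^ (M + 1) : ℕ) := by
        intro s hs
        obtain ⟨f, hf, rfl⟩ := mem_image.mp hs
        have hf' : ∀ i, f i ∈ A := fun i => Fintype.mem_piFinset.mp hf i
        have h1 := fun i => hA (f i) (hf' i)
        choose u hu huw using h1
        have hc : ((∑ i, (u i : 𝓞 L) : 𝓞 L) : L) = ∑ i, ((u i : 𝓞 L) : L) :=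
          map_sum (algebraMap (𝓞 L) L) _ _
        refine ⟨∑ i, (u i : 𝓞 L), ?_, fun w => ?_⟩
        · rw [hc, map_sum]
          exact Finset.sum_congr rfl fun i _ => hu i
        · rw [hc, ← InfinitePlace.norm_embedding_eq w, map_sum]
          refine (norm_sum_le _ _).trans ?_
          calc ∑ i, ‖w.embedding ((u i : 𝓞 L) : L)‖ ≤ ∑ _i : Fin k, (3 : ℝ) ^ (M + 1) := by
                refine Finset.sum_le_sum fun i _ => ?_
                rw [InfinitePlace.norm_embedding_eq]
                exact (huw i w).1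
            _ = _ := by
                rw [Finset.sum_const, Finset.card_univ, Fintype.card_fin, nsmul_eq_mul]
                push_cast
                rfl
      choose! y hy hyw using hex
      have hinj : Set.InjOn y (sums A k) := by
        intro s hs s' hs' h
        rw [← hy s hs, ← hy s' hs', h]
      rw [← card_image_of_injOn hinj]
      refine (card_box_real hr _ (k * 3 ^ (M + 1)) ?_).trans (Nat.pow_le_pow_left ?_ _)
      · intro x hx w
        obtain ⟨s, hs, rfl⟩ := mem_image.mp hx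
        exact hyw s hs w
      · have h1 : 1 ≤ k * 3 ^ (M + 1) := Nat.mul_pos hk (by positivity)
        have h2 : 3 ^ (M + 1) * 3 ≤ (42 * C2 + 3 ^ (2 * C2 + 1)) ^ b := by
          calc 3 ^ (M + 1) * 3 = 3 ^ (2 * C2 * b + 1) := by rw [hM, pow_succ 3 (2 * C2 * b)]
            _ ≤ 3 ^ ((2 * C2 + 1) * b) := Nat.pow_le_pow_right (by norm_num) (by nlinarith)
            _ = (3 ^ (2 * C2 + 1)) ^ b := pow_mul _ _ _
            _ ≤ _ := Nat.pow_le_pow_left (by omega) _
        calc 2 * (k * 3 ^ (M + 1)) + 1 ≤ k * (3 ^ (M + 1) * 3) := by nlinarith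
          _ ≤ _ := Nat.mul_le_mul_left _ h2
    · -- products
      have hex : ∀ s ∈ prods A k, ∃ y : (𝓞 L)ˣ, φ ((y : 𝓞 L) : L) = s ∧
          ∀ w : InfinitePlace L, w ((y : 𝓞 L) : L) ≤ 3 ^ (k * (M + 1)) ∧
            1 ≤ 3 ^ (k * (M + 1)) * w ((y : 𝓞 L) : L) := by
        intro s hs
        obtain ⟨f, hf, rfl⟩ := mem_image.mp hs
        have hf' : ∀ i, f i ∈ A := fun i => Fintype.mem_piFinset.mp hf i
        have h1 := fun i => hA (f i) (hf' i)
        choose u hu huw using h1
        have hc : (((∏ i, u i : (𝓞 L)ˣ) : 𝓞 L) : L) = ∏ i, ((u i : 𝓞 L) : L) := by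
          rw [Units.coe_prod]
          exact map_prod (algebraMap (𝓞 L) L) _ _
        have hpow : (3 : ℝ) ^ (k * (M + 1)) = ∏ _i : Fin k, (3 : ℝ) ^ (M + 1) := by
          rw [Finset.prod_const, Finset.card_univ, Fintype.card_fin, ← pow_mul, mul_comm]
        refine ⟨∏ i, u i, ?_, fun w => ?_⟩
        · rw [hc, map_prod]
          exact Finset.prod_congr rfl fun i _ => hu i
        · rw [hc, map_prod, hpow]
          constructor
          · exact Finset.prod_le_prod (fun i _ => apply_nonneg w _) fun i _ => (huw i w).1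
          · rw [← Finset.prod_mul_distrib]
            calc (1 : ℝ) = ∏ _i : Fin k, (1 : ℝ) := by simp
              _ ≤ _ := Finset.prod_le_prod (fun _ _ => by norm_num) fun i _ => (huw i w).2
      choose! y hy hyw using hex
      have hinj : Set.InjOn y (prods A k) := by
        intro s hs s' hs' h
        rw [← hy s hs, ← hy s' hs', h]
      rw [← card_image_of_injOn hinj]
      refine (card_units hr _ (k * (M + 1)) ?_).trans (Nat.pow_le_pow_left ?_ _)
      · intro u hu w
        obtain ⟨s, hs, rfl⟩ := mem_image.mp hu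
        exact hyw s hs w
      · have h1 : 1 ≤ k * (M + 1) := Nat.mul_pos hk (by omega)
        calc 7 * (2 * (k * (M + 1)) + 1) ≤ 21 * (k * (M + 1)) := by omega
          _ = (42 * C2) * k * b := by rw [hM]; ring
          _ ≤ _ := by gcongr; exact Nat.le_add_right _ _

end Q143.KF
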