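import Mathlib
import Pool.Agent.Q143.KF.Count

/-!
The `k`-fold sum-product inequality fails for finite sets of real numbers.
-/

set_option autoImplicit false

open NumberField Module Finset

namespace Q143.KF

theorem unit_sets_real : ∃ C : ℝ, 1 ≤ C ∧ ∀ b : ℕ, 2 ≤ b → ∀ N : ℕ,
    ∃ (L : Type) (_ : Field L) (_ : NumberField L) (φ : L →+* ℝ) (A : Finset ℝ),
      IsTotallyReal L ∧ N ≤ finrank ℚ L ∧ (b : ℝ) ^ finrank ℚ L ≤ A.card ∧
      (∀ x ∈ A, 0 < x ∧ ∃ u : (𝓞 L)ˣ, φ ((u : 𝓞 L) : L) = x) ∧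
      ∀ k : ℕ, 1 ≤ k →
        ((sums A k).card : ℝ) ≤ (A.card : ℝ) ^ ((Real.log k + C * b) / Real.log b) ∧
        ((prods A k).card : ℝ) ≤ (A.card : ℝ) ^ (1 + (Real.log k + C) / Real.log b) := by
  obtain ⟨C, hC, H⟩ := unit_sets
  have hC1 : (1 : ℝ) ≤ C := by exact_mod_cast hC
  refine ⟨C, hC1, fun b hb N => ?_⟩
  obtain ⟨L, _, _, φ, A, hr, hN, hcard, hunit, hk⟩ := H b (by omega) N
  have hcard' : (b : ℝ) ^ finrank ℚ L ≤ A.card := by exact_mod_cast hcard
  refine ⟨L, inferInstance, inferInstance, φ, A, hr, hN, hcard', hunit, fun k hk1 => ?_⟩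
  obtain ⟨h1, h2⟩ := hk k hk1
  set d := finrank ℚ L with hd
  have hb1 : (1 : ℝ) < b := by exact_mod_cast hb
  have hb0 : (0 : ℝ) < b := by linarith
  have hlogb : 0 < Real.log b := Real.log_pos hb1
  have hk0 : (0 : ℝ) < k := by exact_mod_cast hk1
  have hlogk : 0 ≤ Real.log k := Real.log_nonneg (by exact_mod_cast hk1)
  have hlogC : Real.log C ≤ C := (Real.log_le_sub_one_of_pos (by linarith)).trans (by linarith)
  have key : ∀ x : ℝ, 0 ≤ x → Real.exp x ^ d ≤ (A.card : ℝ) ^ (x / Real.log b) := by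
    intro x hx
    calc Real.exp x ^ d = ((b : ℝ) ^ d) ^ (x / Real.log b) := by
          rw [← Real.rpow_natCast (b : ℝ) d, ← Real.rpow_mul hb0.le,
            Real.rpow_def_of_pos hb0, ← Real.exp_nat_mul]
          congr 1
          field_simp
      _ ≤ _ := Real.rpow_le_rpow (by positivity) hcard' (by positivity)
  constructor
  · have h3 : ((sums A k).card : ℝ) ≤ (k * (C : ℝ) ^ b) ^ d := by exact_mod_cast h1
    refine h3.trans (le_trans ?_ (key _ (by positivity)))
    gcongr
    rw [Real.exp_add, Real.exp_log hk0]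
    gcongr
    rw [mul_comm, Real.exp_nat_mul]
    gcongr
    exact (Real.log_le_iff_le_exp (by linarith)).mp hlogC
  · have h3 : ((prods A k).card : ℝ) ≤ ((C : ℝ) * k * b) ^ d := by exact_mod_cast h2
    have h4 : 1 + (Real.log k + C) / Real.log b = (Real.log b + (Real.log k + C)) / Real.log b := by
      field_simp
    rw [h4]
    refine h3.trans (le_trans ?_ (key _ (by positivity)))
    gcongr
    rw [Real.exp_add, Real.exp_add, Real.exp_log hk0, Real.exp_log hb0]
    have h5 : (C : ℝ) ≤ Real.exp C := (Real.log_le_iff_le_exp (by linarith)).mp hlogC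
    calc (C : ℝ) * k * b = b * (k * C) := by ring
      _ ≤ _ := by gcongr

theorem log_sixteen : Real.exp 1 < Real.log 16 := by
  have h1 : Real.log 16 = 4 * Real.log 2 := by
    rw [show (16 : ℝ) = 2 ^ 4 by norm_num, Real.log_pow]; norm_num
  rw [h1]
  have h2 := Real.exp_one_lt_d9
  have h3 := Real.log_two_gt_d9
  linarith

/-- Sets of reals with few `k`-fold sums and few `k`-fold products, for one `k`. -/
theorem fixed_k : ∃ C : ℝ, 1 ≤ C ∧ ∀ k : ℕ, 16 ≤ k → ∀ N : ℕ, ∃ A : Finset ℝ, N ≤ A.card ∧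
    (∀ x ∈ A, 0 < x) ∧
    max ((sums A k).card : ℝ) ((prods A k).card : ℝ) ≤
      (A.card : ℝ) ^ (C * Real.log k / Real.log (Real.log k)) := by
  obtain ⟨C, hC, H⟩ := unit_sets_real
  refine ⟨2 + 2 * C, by linarith, fun k hk N => ?_⟩
  have hk16 : (16 : ℝ) ≤ k := by exact_mod_cast hk
  set l := Real.log k with hl
  have hl16 : Real.exp 1 < l := log_sixteen.trans_le (Real.log_le_log (by norm_num) hk16)
  have he : (2 : ℝ) < Real.exp 1 := by have := Real.exp_one_gt_d9; linarith
  have hl0 : 0 < l := by linarith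
  have hll : 1 < Real.log l := by
    rw [Real.lt_log_iff_exp_lt hl0]; exact hl16
  set b : ℕ := ⌈l⌉₊ with hb
  have hbl : l ≤ b := Nat.le_ceil l
  have hbu : (b : ℝ) < l + 1 := Nat.ceil_lt_add_one hl0.le
  have hb2 : 2 ≤ b := by
    have : (2 : ℝ) ≤ b := by linarith
    exact_mod_cast this
  obtain ⟨L, _, _, φ, A, hr, hN, hcard, hunit, hk'⟩ := H b hb2 (N + 1)
  have hNA : N + 1 ≤ A.card := by
    have h1 : (((N + 1 : ℕ) : ℝ)) ≤ A.card := by
      calc (((N + 1 : ℕ) : ℝ)) ≤ finrank ℚ L := by exact_mod_cast hN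
        _ ≤ (2 : ℝ) ^ finrank ℚ L := by
            exact_mod_cast (Nat.lt_two_pow_self (n := finrank ℚ L)).le
        _ ≤ (b : ℝ) ^ finrank ℚ L := by
            gcongr
            exact_mod_cast hb2
        _ ≤ _ := hcard
    exact_mod_cast h1
  have hA1 : (1 : ℝ) ≤ A.card := by
    have : 1 ≤ A.card := by omega
    exact_mod_cast this
  refine ⟨A, by omega, fun x hx => (hunit x hx).1, ?_⟩
  obtain ⟨h1, h2⟩ := hk' k (by omega)
  have hlb : Real.log l ≤ Real.log b := Real.log_le_log hl0 hbl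
  have hlogb : 0 < Real.log b := by linarith
  rw [max_le_iff]
  constructor
  · refine h1.trans (Real.rpow_le_rpow_of_exponent_le hA1 ?_)
    calc (l + C * b) / Real.log b ≤ (l + C * b) / Real.log l :=
          div_le_div_of_nonneg_left (by positivity) (by linarith) hlb
      _ ≤ _ := by
          gcongr
          nlinarith
  · refine h2.trans (Real.rpow_le_rpow_of_exponent_le hA1 ?_)
    have h3 : (l + C) / Real.log b ≤ (l + C) / Real.log l :=
      div_le_div_of_nonneg_left (by positivity) (by linarith) hlb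
    have h4 : 1 ≤ l / Real.log l := by
      rw [one_le_div (by linarith)]
      exact (Real.log_le_sub_one_of_pos hl0).trans (by linarith)
    have h5 : (l + C) / Real.log l ≤ (1 + C) * (l / Real.log l) := by
      rw [← mul_div_assoc]
      gcongr
      nlinarith
    calc 1 + (l + C) / Real.log b ≤ l / Real.log l + (1 + C) * (l / Real.log l) := by linarith
      _ = (2 + C) * (l / Real.log l) := by ring
      _ ≤ (2 + 2 * C) * (l / Real.log l) := by
          have : 0 ≤ l / Real.log l := by linarith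
          nlinarith
      _ = _ := by ring

/-- The `k`-fold inequality fails for sets of reals, with any positive multiple of `k` as the
exponent. -/
theorem fails (η : ℝ) (hη : 0 < η) : ∃ k0 : ℕ, ∀ k : ℕ, k0 ≤ k → ¬ ∃ c : ℝ, 0 < c ∧
    ∀ A : Finset ℝ, A.Nonempty →
      c * (A.card : ℝ) ^ (η * k) ≤ max ((sums A k).card : ℝ) ((prods A k).card : ℝ) := by
  obtain ⟨C, hC, H⟩ := fixed_k
  refine ⟨max 16 ⌈(4 * C / η) ^ 2⌉₊, fun k hk => ?_⟩
  rintro ⟨c, hc, hc'⟩
  have hk16 : 16 ≤ k := (le_max_left _ _).trans hk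
  have hk2 : (4 * C / η) ^ 2 ≤ k := (Nat.le_ceil _).trans (by exact_mod_cast (le_max_right _ _).trans hk)
  have hkR : (16 : ℝ) ≤ k := by exact_mod_cast hk16
  have hkpos : (0 : ℝ) < k := by linarith
  have hηk : 0 < η * k := by positivity
  obtain ⟨A, hN, hpos, hmax⟩ := H k hk16 (⌈(1 / c) ^ (2 / (η * k))⌉₊ + 2)
  have hA2 : (2 : ℝ) ≤ A.card := by
    have : 2 ≤ A.card := by omega
    exact_mod_cast this
  have hA0 : (0 : ℝ) < A.card := by linarith
  have hne : A.Nonempty := by
    rw [← Finset.card_pos]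
    exact_mod_cast hA0
  have h1 := (hc' A hne).trans hmax
  have hsqrt : Real.log k ≤ 2 * √k := by
    have h2 : Real.log k = 2 * Real.log (√k) := by
      rw [Real.log_sqrt hkpos.le]; ring
    rw [h2]
    have h3 : Real.log (√k) ≤ √k - 1 := Real.log_le_sub_one_of_pos (by positivity)
    linarith
  have hexp : C * Real.log k / Real.log (Real.log k) ≤ η * k / 2 := by
    have hll : 1 < Real.log (Real.log k) := by
      have hl16 : Real.exp 1 < Real.log k :=
        log_sixteen.trans_le (Real.log_le_log (by norm_num) hkR)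
      rw [Real.lt_log_iff_exp_lt (by have := Real.exp_pos 1; linarith)]
      exact hl16
    have hlog0 : 0 ≤ Real.log k := Real.log_nonneg (by linarith)
    have h4 : C * Real.log k / Real.log (Real.log k) ≤ C * Real.log k :=
      div_le_self (by positivity) hll.le
    have h5 : 4 * C / η ≤ √k := Real.le_sqrt_of_sq_le hk2
    have h6 : 4 * C ≤ √k * η := by rwa [div_le_iff₀ hη] at h5
    have h7 : √k * √k = k := Real.mul_self_sqrt hkpos.le
    have h8 : 0 ≤ √k := Real.sqrt_nonneg _
    calc _ ≤ C * Real.log k := h4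
      _ ≤ C * (2 * √k) := by gcongr
      _ = (4 * C) * √k / 2 := by ring
      _ ≤ (√k * η) * √k / 2 := by gcongr
      _ = η * (√k * √k) / 2 := by ring
      _ = _ := by rw [h7]
  have h2 : c * (A.card : ℝ) ^ (η * k) ≤ (A.card : ℝ) ^ (η * k / 2) :=
    h1.trans (Real.rpow_le_rpow_of_exponent_le (by linarith) hexp)
  have h3 : (A.card : ℝ) ^ (η * k) = (A.card : ℝ) ^ (η * k / 2) * (A.card : ℝ) ^ (η * k / 2) := by
    rw [← Real.rpow_add hA0]; congr 1; ring
  rw [h3, ← mul_assoc] at h2
  have h4 : 0 < (A.card : ℝ) ^ (η * k / 2) := by positivity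
  have h5 : c * (A.card : ℝ) ^ (η * k / 2) ≤ 1 := by
    by_contra h
    push Not at h
    nlinarith
  have h6 : (1 / c) ^ (2 / (η * k)) < A.card := by
    have h7 := Nat.le_ceil ((1 / c) ^ (2 / (η * k)))
    have h8 : ((⌈(1 / c) ^ (2 / (η * k))⌉₊ + 2 : ℕ) : ℝ) ≤ A.card := by exact_mod_cast hN
    push_cast at h8
    linarith
  have h7 : 1 / c < (A.card : ℝ) ^ (η * k / 2) := by
    calc 1 / c = ((1 / c) ^ (2 / (η * k))) ^ (η * k / 2) := by
          rw [← Real.rpow_mul (by positivity)]
          have : 2 / (η * k) * (η * k / 2) = 1 := by field_simp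
          rw [this, Real.rpow_one]
      _ < _ := Real.rpow_lt_rpow (by positivity) h6 (by positivity)
  rw [div_lt_iff₀ hc] at h7
  linarith

/-- The dichotomy with logarithmic exponents, which holds for sets of integers, fails for sets of
reals. -/
theorem log_dichotomy_fails : ¬ ∃ c : ℝ, 0 < c ∧ ∀ A : Finset ℝ, A.Nonempty → ∀ m : ℕ, 2 ≤ m →
    (m : ℝ) ≤ Real.log A.card → ∀ k : ℕ, 2 ≤ k →
      (A.card : ℝ) ^ (c * Real.log k) ≤ ((prods A k).card : ℝ) ∨
      (A.card : ℝ) ^ (1 + c * Real.log m) ≤ ((sums A m).card : ℝ) := by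
  rintro ⟨c, hc, hdich⟩
  obtain ⟨C, hC, H⟩ := fixed_k
  set x : ℝ := max (Real.exp (Real.exp (C / c + 1))) 16 with hx
  set k : ℕ := ⌈x⌉₊ with hk
  have hxk : x ≤ k := Nat.le_ceil x
  have hkR : (16 : ℝ) ≤ k := (le_max_right _ _).trans hxk
  have hk16 : 16 ≤ k := by exact_mod_cast hkR
  have hkpos : (0 : ℝ) < k := by linarith
  have hlog : Real.exp (C / c + 1) ≤ Real.log k := by
    rw [Real.le_log_iff_exp_le hkpos]
    exact (le_max_left _ _).trans hxk
  have hlog0 : 0 < Real.log k := (Real.exp_pos _).trans_le hlog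
  have hll : C / c + 1 ≤ Real.log (Real.log k) := by
    rw [Real.le_log_iff_exp_le hlog0]; exact hlog
  have hCc : 0 < C / c := by positivity
  have hexp : C * Real.log k / Real.log (Real.log k) < c * Real.log k := by
    rw [div_lt_iff₀ (by linarith)]
    have h1 : C < c * Real.log (Real.log k) := by
      have h2 : C = c * (C / c) := by field_simp
      have h3 : C / c < Real.log (Real.log k) := by linarith
      calc C = c * (C / c) := h2
        _ < _ := mul_lt_mul_of_pos_left h3 hc
    nlinarith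
  obtain ⟨A, hN, -, hmax⟩ := H k hk16 (⌈Real.exp k⌉₊ + 2)
  have hAe : Real.exp k ≤ A.card := by
    have h7 := Nat.le_ceil (Real.exp k)
    have h8 : ((⌈Real.exp k⌉₊ + 2 : ℕ) : ℝ) ≤ A.card := by exact_mod_cast hN
    push_cast at h8
    linarith
  have hA2 : (2 : ℝ) ≤ A.card := by
    have : 2 ≤ A.card := by omega
    exact_mod_cast this
  have hne : A.Nonempty := by
    rw [← Finset.card_pos]
    have : 2 ≤ A.card := by omega
    omega
  have hm : (k : ℝ) ≤ Real.log A.card := by
    rw [Real.le_log_iff_exp_le (by linarith)]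
    exact hAe
  have hlt : (A.card : ℝ) ^ (C * Real.log k / Real.log (Real.log k)) <
      (A.card : ℝ) ^ (c * Real.log k) := Real.rpow_lt_rpow_of_exponent_lt (by linarith) hexp
  rcases hdich A hne k (by omega) hm k (by omega) with h | h
  · have := (le_max_right _ _).trans hmax
    linarith
  · have h1 := (le_max_left _ _).trans hmax
    have h2 : (A.card : ℝ) ^ (c * Real.log k) ≤ (A.card : ℝ) ^ (1 + c * Real.log k) :=
      Real.rpow_le_rpow_of_exponent_le (by linarith) (by linarith)
    linarith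

end Q143.KF
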